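import Mathlib
import Pool.Agent.H53Sph.Main

/-!
# Unit sphere and unit ball are uniformly homeomorphic for spaces with a complemented copy of `c_0`

Let `X` be a real Banach space with a complemented subspace isomorphic to `c_0`; by Sobczyk's theorem
(proved here) this holds for every separable `X` which contains a copy of `c_0`, for instance for
`c_0`, for `C(K)` with `K` compact metric and infinite, and for every separable renorming or enlargement
of these. Then there is a bi-Lipschitz bijection between the unit sphere and the closed unit ball of `X`.

Proof. For `x ∈ c_0`, `x ≥ 0`, put `m_n = min (x_0, ..., x_n)` and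
`y_n = max (x_{n+1}, m_n) - 2 m_n`. This is a homogeneous bi-Lipschitz bijection of the positive cone of
`c_0` onto `c_0`; the inverse is given by `x_0 = s_0`, `x_{n+1} = max (s_{n+1}, y_n + 2 s_{n+1})`,
`s_n = sup_{k ≥ n} max (-y_k, 0)`. As the positive cone is the product of `[0, ∞)` and the positive cone,
`X` is mapped onto the half-space `[0, ∞) × X` by a homogeneous bi-Lipschitz bijection. Hence the unit
sphere of `X` is bi-Lipschitz equivalent to a hemisphere, that is, to the unit ball of `X`.
-/

set_option autoImplicit false

open Metric
open scoped ZeroAtInfty NNReal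

namespace Pool.Agent.Results.MP_1eafec_an.ContainsCZero

/-- Let `X` be a real Banach space and let `e : c_0 → X` be an isomorphism onto a subspace. If `X` is
separable or the subspace is complemented (there is `P : X → c_0` linear continuous with `P e = id`),
then `X` is infinite-dimensional and there is a uniform homeomorphism `f` of the unit sphere of `X` onto
the closed unit ball of `X`; moreover `f` and its inverse are Lipschitz. -/
theorem result.{u} (X : Type u) [NormedAddCommGroup X] [NormedSpace ℝ X] [CompleteSpace X]
    (e : C₀(ℕ, ℝ) →L[ℝ] X) (c : ℝ) (hc : 0 < c) (he : ∀ z, c * ‖z‖ ≤ ‖e z‖)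
    (h : TopologicalSpace.SeparableSpace X ∨ ∃ P : X →L[ℝ] C₀(ℕ, ℝ), ∀ z, P (e z) = z) :
    ¬ FiniteDimensional ℝ X ∧
    ∃ (f : sphere (0 : X) 1 ≃ᵤ closedBall (0 : X) 1) (K : ℝ≥0),
      LipschitzWith K f ∧ LipschitzWith K f.symm :=
  ⟨Pool.Agent.H53Sph.not_finite_of_embedding e hc he, Pool.Agent.H53Sph.main e hc he h⟩

end Pool.Agent.Results.MP_1eafec_an.ContainsCZero
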